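import Mathlib
import Pool.Agent.P.MP_5aeb4a_al.EM

namespace Pool.Agent.Results.MP_5aeb4a_al.EndD4

open Pool.Agent.P.MP_5aeb4a_al

/-- Classification of the endomorphisms of the Artin group of type `D₄`. -/
theorem result (t : Fin 4 → AD4) : (∃ φ : AD4 →* AD4, ∀ l, φ (s4 l) = t l) ↔
    ((t 0 = t 2 ∧ t 2 = t 3 ∧ t 0 * t 1 * t 0 = t 1 * t 0 * t 1) ∨
    (∃ (f : Fin 4 → Fin 4) (i j : Fin 4) (a : AD4) (ε m q : ℤ), (ε = 1 ∨ ε = -1) ∧ i ≠ 1 ∧ j ≠ 1 ∧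
      i ≠ j ∧ f 1 = 1 ∧ (∀ l, l ≠ 1 → f l = i ∨ f l = j) ∧
      ∀ l, t l = a * (s4 (f l) ^ ε * zz i j ^ m * c4 ^ q) * a⁻¹) ∨
    ∃ (f : Equiv.Perm (Fin 4)) (a : AD4) (ε q : ℤ), (ε = 1 ∨ ε = -1) ∧ f 1 = 1 ∧
      ∀ l, t l = a * (s4 (f l) ^ ε * c4 ^ q) * a⁻¹) := by
  constructor
  · rintro ⟨φ, h⟩
    have R : Rels edgesD4 t := funext h ▸ rels_s4.map φ
    exact (main4 R).imp_left fun e => ⟨e.1, e.2, R.br4 (by decide)⟩
  · intro h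
    suffices R : Rels edgesD4 t from ⟨R.lift, R.lift_of⟩
    rcases h with ⟨h1, h2, h3⟩ | h
    · have k : ∀ l, l ≠ 1 → t l = t 0 := fun l hl => by
        fin_cases l
        exacts [rfl, absurd rfl hl, h1.symm, (h1.trans h2).symm]
      exact rels_D4 (fun l hl => by rw [k l hl, h3]) fun i j hi hj => by rw [k i hi, k j hj]
    · exact Gd.rels h

end Pool.Agent.Results.MP_5aeb4a_al.EndD4
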