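import Mathlib
import Pool.Agent.P.MP_5aeb4a_al.H5

namespace Pool.Agent.Results.MP_5aeb4a_al.EndD5

open Pool.Agent.P.MP_5aeb4a_al

/-- Classification of the endomorphisms of the Artin group of type `D₅`. -/
theorem result (t : Fin 5 → AD) : (∃ φ : AD →* AD, ∀ i, φ (s i) = t i) ↔
    ((∀ i, t i = t 0) ∨
    (∃ (a : AD) (ε m q : ℤ), (ε = 1 ∨ ε = -1) ∧
      ∀ i, t i = a * (s (fold i).castSucc ^ ε * z ^ m * c ^ q) * a⁻¹) ∨
    ∃ (a : AD) (ε q : ℤ), (ε = 1 ∨ ε = -1) ∧ ∀ i, t i = a * (s i ^ ε * c ^ q) * a⁻¹) := by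
  refine ⟨fun ⟨φ, h⟩ => by simpa only [h] using main_all φ, fun h => ?_⟩
  suffices R : Rels edgesD t from ⟨R.lift, R.lift_of⟩
  have cq : ∀ (q : ℤ) (y : AD), c ^ q * y = y * c ^ q := fun q y =>
    (Commute.zpow_left (c_comm y) q).eq
  have cz : ∀ (n : ℤ) (a : B5), zB ^ n * a = a * zB ^ n := fun n a =>
    (Commute.zpow_left (zB_comm a) n).eq
  rcases h with h | ⟨a, ε, m, q, rfl | rfl, h⟩ | ⟨a, ε, q, rfl | rfl, h⟩
  · exact fun i j => ⟨fun _ => by rw [h i, h j], fun _ _ => by rw [h i, h j]⟩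
  · have := (((rels_fold.mul_central (cz m)).map inc).mul_central (cq q)).map
      (MulAut.conj a).toMonoidHom
    rw [funext h]
    simpa [inc_σ, inc_zB] using this
  · have := (((rels_fold.inv.mul_central (cz m)).map inc).mul_central (cq q)).map
      (MulAut.conj a).toMonoidHom
    rw [funext h]
    simpa [inc_σ, inc_zB] using this
  · have := (rels_s.mul_central (cq q)).map (MulAut.conj a).toMonoidHom
    rw [funext h]
    simpa using this
  · have := (rels_s.inv.mul_central (cq q)).map (MulAut.conj a).toMonoidHom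
    rw [funext h]
    simpa using this

end Pool.Agent.Results.MP_5aeb4a_al.EndD5
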